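import Mathlib
import Pool.Agent.U136.DX.Stm

/-!
# Package EX5 of the project DX of helper136, proved by helper109
-/

set_option autoImplicit false

namespace Pool.Agent.U109.DX

open Pool.Agent.N983.RT Pool.Agent.U136.DS Pool.Agent.U136.DX

/-- a function with the values `c0, ..., c5` at `0, ..., 5` -/
noncomputable def sel (c0 c1 c2 c3 c4 c5 : ℝ) (j : ℤ) : ℝ :=
  if j = 0 then c0 else if j = 1 then c1 else if j = 2 then c2 else if j = 3 then c3 else
    if j = 4 then c4 else c5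

theorem sum_sel (c0 c1 c2 c3 c4 c5 : ℝ) (f : ℤ → ℝ) :
    ∑ j ∈ Finset.Icc (0 : ℤ) ((5 : ℕ) : ℤ), sel c0 c1 c2 c3 c4 c5 j * f j =
      c0 * f 0 + c1 * f 1 + c2 * f 2 + c3 * f 3 + c4 * f 4 + c5 * f 5 := by
  have h : Finset.Icc (0 : ℤ) ((5 : ℕ) : ℤ) = {0, 1, 2, 3, 4, 5} := by rfl
  rw [h]
  rw [Finset.sum_insert (by decide), Finset.sum_insert (by decide), Finset.sum_insert (by decide),
    Finset.sum_insert (by decide), Finset.sum_insert (by decide), Finset.sum_singleton]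
  have e0 : sel c0 c1 c2 c3 c4 c5 0 = c0 := by unfold sel; norm_num
  have e1 : sel c0 c1 c2 c3 c4 c5 1 = c1 := by unfold sel; norm_num
  have e2 : sel c0 c1 c2 c3 c4 c5 2 = c2 := by unfold sel; norm_num
  have e3 : sel c0 c1 c2 c3 c4 c5 3 = c3 := by unfold sel; norm_num
  have e4 : sel c0 c1 c2 c3 c4 c5 4 = c4 := by unfold sel; norm_num
  have e5 : sel c0 c1 c2 c3 c4 c5 5 = c5 := by unfold sel; norm_num
  rw [e0, e1, e2, e3, e4, e5]
  ring

/-- the property of the coefficients for the exponent `a` -/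
def Ok (a : ℕ) (c : ℤ → ℝ) : Prop :=
  (∀ x : ℝ, ∑ j ∈ Finset.Icc (0 : ℤ) ((5 : ℕ) : ℤ), c j * (x + j) ^ 5 = x ^ a) ∧
    (a < 5 → ∑ j ∈ Finset.Icc (0 : ℤ) ((5 : ℕ) : ℤ), c j = 0)

theorem one_of (a : ℕ) (c0 c1 c2 c3 c4 c5 : ℝ)
    (h : ∀ x : ℝ, c0 * (x + 0) ^ 5 + c1 * (x + 1) ^ 5 + c2 * (x + 2) ^ 5 + c3 * (x + 3) ^ 5 +
      c4 * (x + 4) ^ 5 + c5 * (x + 5) ^ 5 = x ^ a)
    (h' : a < 5 → c0 + c1 + c2 + c3 + c4 + c5 = 0) : ∃ c : ℤ → ℝ, Ok a c := by
  refine ⟨sel c0 c1 c2 c3 c4 c5, fun x => ?_, fun ha => ?_⟩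
  · rw [sum_sel c0 c1 c2 c3 c4 c5 (fun j : ℤ => (x + (j : ℝ)) ^ 5)]
    have := h x
    push_cast
    exact this
  · have h1 := sum_sel c0 c1 c2 c3 c4 c5 (fun _ : ℤ => (1 : ℝ))
    simp only [mul_one] at h1
    rw [h1]
    exact h' ha

theorem exists_one (a : ℕ) (ha : a ≤ 5) : ∃ c : ℤ → ℝ, Ok a c := by
  interval_cases a
  · exact one_of (0) (-1 / 120) (1 / 24) (-1 / 12) (1 / 12) (-1 / 24) (1 / 120) (fun x => by ring) (by norm_num)
  · exact one_of (1) (1 / 40) (-7 / 60) (13 / 60) (-1 / 5) (11 / 120) (-1 / 60) (fun x => by ring) (by norm_num)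
  · exact one_of (2) (-17 / 240) (71 / 240) (-59 / 120) (49 / 120) (-41 / 240) (7 / 240) (fun x => by ring) (by norm_num)
  · exact one_of (3) (3 / 16) (-77 / 120) (107 / 120) (-13 / 20) (61 / 240) (-1 / 24) (fun x => by ring) (by norm_num)
  · exact one_of (4) (-137 / 300) (1) (-1) (2 / 3) (-1 / 4) (1 / 25) (fun x => by ring) (by norm_num)
  · exact one_of (5) (1) (0) (0) (0) (0) (0) (fun x => by ring) (by norm_num)

theorem span5 : Span5 pex := by
  refine ⟨5, fun β hβ => ?_⟩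
  have hle : ∀ i, β i ≤ 5 := by
    intro i
    rw [← hβ]
    exact Finset.single_le_sum (f := β) (fun _ _ => Nat.zero_le _) (Finset.mem_univ i)
  choose c hc using fun i => exists_one (β i) (hle i)
  refine ⟨fun y => ∏ i, c i (y i), ?_, fun x => ?_⟩
  · unfold box
    rw [← Finset.prod_univ_sum (fun _ : Fin 3 => Finset.Icc (0 : ℤ) ((5 : ℕ) : ℤ)) (fun i j => c i j)]
    obtain ⟨i, hi⟩ : ∃ i, β i < 5 := by
      by_contra hcon
      push Not at hcon
      have h0 := hcon 0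
      have h1 := hcon 1
      rw [Fin.sum_univ_three] at hβ
      omega
    exact Finset.prod_eq_zero (Finset.mem_univ i) ((hc i).2 hi)
  · unfold box
    have h1 : ∀ y : Wv, (∏ i, c i (y i)) * pex (x + y) =
        ∏ i, (c i (y i) * ((x i : ℝ) + (y i : ℝ)) ^ 5) := by
      intro y
      rw [Finset.prod_mul_distrib]
      congr 1
      unfold pex
      rw [Fin.prod_univ_three]
      simp only [Pi.add_apply, Int.cast_add]
      ring
    rw [Finset.sum_congr rfl fun y _ => h1 y]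
    rw [← Finset.prod_univ_sum (fun _ : Fin 3 => Finset.Icc (0 : ℤ) ((5 : ℕ) : ℤ))
      (fun i j => c i j * ((x i : ℝ) + (j : ℝ)) ^ 5)]
    apply Finset.prod_congr rfl
    intro i _
    exact ((hc i).1 (x i)).symm

theorem polyD : PolyD 5 pex := by
  intro k i
  obtain ⟨c, hc⟩ : ∃ c : ℝ, ∀ t : ℤ, pex (Function.update k i t) = c * (t : ℝ) ^ 5 := by
    fin_cases i
    · refine ⟨((k 1 : ℝ) * (k 2 : ℝ)) ^ 5, fun t => ?_⟩
      unfold pex
      simp [Function.update]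
      ring
    · refine ⟨((k 0 : ℝ) * (k 2 : ℝ)) ^ 5, fun t => ?_⟩
      unfold pex
      simp [Function.update]
      ring
    · refine ⟨((k 0 : ℝ) * (k 1 : ℝ)) ^ 5, fun t => ?_⟩
      unfold pex
      simp [Function.update]
      ring
  refine ⟨Polynomial.C c * Polynomial.X ^ 5, Polynomial.natDegree_C_mul_X_pow_le c 5, fun t => ?_⟩
  rw [hc]
  simp

theorem t_EX5 : S_EX5 := by
  refine ⟨fun k => ?_, polyD, span5⟩
  unfold pex
  simp only [Pi.neg_apply, Int.cast_neg]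
  ring

end Pool.Agent.U109.DX
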